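import Pool.Agent.W79.BP.Defs

set_option autoImplicit false

namespace Pool.Agent.W737.BP

open scoped Classical
open Pool.Agent.W79.BP Equiv

variable {n : ℕ} {σ : Equiv.Perm (Fin n)}

lemma mem_cy {x v : Fin n} : v ∈ cy σ x ↔ σ.SameCycle x v := by simp [cy]

lemma cy_eq {a b : Fin n} (h : σ.SameCycle a b) : cy σ a = cy σ b := by
  ext v
  rw [mem_cy, mem_cy]
  exact ⟨fun h' => h.symm.trans h', fun h' => h.trans h'⟩

lemma cy_of_mem {C : Finset (Fin n)} (hC : C ∈ Cy σ) {v : Fin n} (hv : v ∈ C) : C = cy σ v := by
  simp only [Cy, Finset.mem_image, Finset.mem_univ, true_and] at hC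
  obtain ⟨z, rfl⟩ := hC
  exact cy_eq (mem_cy.mp hv)

lemma self_mem (x : Fin n) : x ∈ cy σ x := mem_cy.mpr (Perm.SameCycle.refl σ x)

lemma cy_mem (x : Fin n) : cy σ x ∈ Cy σ := by simp [Cy]

lemma adj_zpow {β : SimpleGraph (Fin n)} (hβ : β ∈ Fx σ) (k : ℤ) :
    ∀ a b : Fin n, β.Adj ((σ ^ k) a) ((σ ^ k) b) ↔ β.Adj a b := by
  have h0 : SimpleGraph.comap (⇑σ) β = β := by simpa [Fx] using hβ
  have h1 : ∀ a b : Fin n, β.Adj (σ a) (σ b) ↔ β.Adj a b := by
    intro a b
    have h2 : (SimpleGraph.comap (⇑σ) β).Adj a b ↔ β.Adj a b := by rw [h0]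
    exact h2
  induction k using Int.induction_on with
  | zero => intro a b; simp
  | succ k ih =>
    intro a b
    rw [zpow_add_one, Perm.mul_apply, Perm.mul_apply, ih, h1]
  | pred k ih =>
    intro a b
    rw [zpow_sub_one, Perm.mul_apply, Perm.mul_apply, ih]
    have := h1 (σ⁻¹ a) (σ⁻¹ b)
    simpa using this.symm

lemma card_symm {J : Type} [Fintype J] [DecidableEq J] (g : Finset J) (q : ℕ) :
    ((Finset.univ : Finset (Finset J)).filter (fun s => (symmDiff s g).card < q)).card ≤
      ∑ j ∈ Finset.range q, (Fintype.card J).choose j := by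
  have h1 : ((Finset.univ : Finset (Finset J)).filter (fun s => (symmDiff s g).card < q)).card ≤
      ((Finset.range q).biUnion (fun j => Finset.powersetCard j (Finset.univ : Finset J))).card := by
    apply Finset.card_le_card_of_injOn (fun s => symmDiff s g)
    · intro s hs
      simp only [Finset.coe_filter, Finset.mem_univ, true_and, Set.mem_ofPred_eq] at hs
      simp only [Finset.coe_biUnion, Set.mem_iUnion, Finset.mem_coe, Finset.mem_range,
        Finset.mem_powersetCard, exists_prop]
      exact ⟨_, hs, Finset.subset_univ _, rfl⟩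
    · intro s _ t _ hst
      exact symmDiff_left_injective g hst
  refine h1.trans (Finset.card_biUnion_le.trans (le_of_eq ?_))
  refine Finset.sum_congr rfl fun j _ => ?_
  rw [Finset.card_powersetCard, Finset.card_univ]

theorem main : S_FLIP → S_A2 := by
  intro hflip n σ x y q hxy
  set S : Finset (Finset (Fin n)) := (Cy σ).filter (fun C => x ∉ C ∧ y ∉ C) with hS
  have hcS : S.card = (Cy σ).card - 2 := by
    have h1 : S = ((Cy σ).erase (cy σ x)).erase (cy σ y) := by
      ext C
      simp only [hS, Finset.mem_filter, Finset.mem_erase, ne_eq]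
      constructor
      · rintro ⟨h1, h2, h3⟩
        refine ⟨?_, ?_, h1⟩
        · rintro rfl; exact h3 (self_mem y)
        · rintro rfl; exact h2 (self_mem x)
      · rintro ⟨h1, h2, h3⟩
        exact ⟨h3, fun h => h2 (cy_of_mem h3 h), fun h => h1 (cy_of_mem h3 h)⟩
    have h2 : cy σ y ∈ (Cy σ).erase (cy σ x) := by
      rw [Finset.mem_erase]
      refine ⟨?_, cy_mem y⟩
      intro h
      have := self_mem (σ := σ) y
      rw [h] at this
      exact hxy (mem_cy.mp this)
    rw [h1, Finset.card_erase_of_mem h2, Finset.card_erase_of_mem (cy_mem x)]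
    omega
  -- the index type
  let J : Type := {C : Finset (Fin n) // C ∈ S}
  have hJC : ∀ C : J, C.1 ∈ Cy σ ∧ x ∉ C.1 ∧ y ∉ C.1 := fun C => by
    exact Finset.mem_filter.mp C.2
  have hex : ∀ C : J, ∃ c, c ∈ C.1 := by
    intro C
    have h := (hJC C).1
    simp only [Cy, Finset.mem_image, Finset.mem_univ, true_and] at h
    obtain ⟨z, hz⟩ := h
    exact ⟨z, by rw [← hz]; exact self_mem z⟩
  choose c hc using hex
  have hcyc : ∀ C : J, ∀ v ∈ C.1, C.1 = cy σ v := fun C v hv => cy_of_mem (hJC C).1 hv
  -- x is not in the cycle of a point of C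
  have hxC : ∀ (C : J) (v : Fin n), v ∈ C.1 → ∀ k : ℤ, (σ ^ k) x ≠ v := by
    intro C v hv k hk
    apply (hJC C).2.1
    rw [hcyc C v hv, mem_cy]
    exact Perm.SameCycle.symm ⟨k, hk⟩
  have hSOx : ∀ (i C : J) (v : Fin n), v ∈ C.1 → (SO σ (x, c i) (x, v) ↔
      i = C ∧ ∃ k : ℤ, (σ ^ k) x = x ∧ (σ ^ k) (c i) = v) := by
    intro i C v hv
    constructor
    · rintro ⟨k, ⟨h1, h2⟩ | ⟨h1, h2⟩⟩
      · refine ⟨?_, k, h1, h2⟩
        apply Subtype.ext
        rw [hcyc i (c i) (hc i), hcyc C v hv]
        exact cy_eq ⟨k, h2⟩
      · exact absurd h1 (hxC C v hv k)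
    · rintro ⟨-, k, h1, h2⟩
      exact ⟨k, Or.inl ⟨h1, h2⟩⟩
  have hSOy : ∀ (i C : J) (v : Fin n), v ∈ C.1 → ¬ SO σ (x, c i) (y, v) := by
    rintro i C v hv ⟨k, ⟨h1, h2⟩ | ⟨h1, h2⟩⟩
    · exact hxy ⟨k, h1⟩
    · exact hxC C v hv k h1
  set B : Finset (SimpleGraph (Fin n)) := (Fx σ).filter (fun β => ((Cy σ).filter (fun C => x ∉ C ∧
    y ∉ C ∧ (C.filter (β.Adj x)).card ≠ (C.filter (β.Adj y)).card)).card < q) with hB
  have hmain := hflip n σ J (fun C => (x, c C)) (by
      intro C h
      apply (hJC C).2.1
      have h' : x = c C := h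
      rw [h']
      exact hc C) (by
      intro i j hij h
      have := (hSOx i j (c j) (hc j)).mp h
      exact hij this.1) B (∑ j ∈ Finset.range q, ((Cy σ).card - 2).choose j)
      (Finset.filter_subset _ _) (by
      intro β hβ
      -- the flipped degree
      let Gam : J → Fin n → Prop := fun C v => ∃ k : ℤ, (σ ^ k) x = x ∧ (σ ^ k) (c C) = v
      let f1 : J → ℕ := fun C => (C.1.filter (fun v => ¬ (β.Adj x v ↔ Gam C v))).card
      let f0 : J → ℕ := fun C => (C.1.filter (β.Adj x)).card
      have hGc : ∀ C, Gam C (c C) := fun C => ⟨0, by simp, by simp⟩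
      have hconst : ∀ C v, Gam C v → (β.Adj x v ↔ β.Adj x (c C)) := by
        rintro C v ⟨k, h1, h2⟩
        have := adj_zpow hβ k x (c C)
        rw [h1, h2] at this
        exact this
      have hf01 : ∀ C, f0 C ≠ f1 C := by
        intro C
        by_cases hadj : β.Adj x (c C)
        · -- f1 < f0
          have hss : (C.1.filter (fun v => ¬ (β.Adj x v ↔ Gam C v))) ⊂ C.1.filter (β.Adj x) := by
            rw [Finset.ssubset_iff_of_subset]
            · refine ⟨c C, ?_, ?_⟩
              · simp [hc C, hadj]
              · simp [hadj, hGc C]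
            · intro v hv
              rw [Finset.mem_filter] at hv ⊢
              refine ⟨hv.1, ?_⟩
              by_contra hn
              apply hv.2
              constructor
              · intro h; exact absurd h hn
              · intro h; exact (hconst C v h).mpr hadj
          exact (Finset.card_lt_card hss).ne'
        · have hss : C.1.filter (β.Adj x) ⊂ (C.1.filter (fun v => ¬ (β.Adj x v ↔ Gam C v))) := by
            rw [Finset.ssubset_iff_of_subset]
            · refine ⟨c C, ?_, ?_⟩
              · simp [hc C, hadj, hGc C]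
              · simp [hadj]
            · intro v hv
              rw [Finset.mem_filter] at hv ⊢
              refine ⟨hv.1, ?_⟩
              intro h
              have h2 := h.mp hv.2
              exact hadj ((hconst C v h2).mp hv.2)
          exact (Finset.card_lt_card hss).ne
      let g : Finset J := Finset.univ.filter (fun C => f1 C = (C.1.filter (β.Adj y)).card)
      have hcJ : Fintype.card J = (Cy σ).card - 2 := by
        rw [← hcS]
        exact Fintype.card_coe S
      have hle : (((Finset.univ : Finset (Finset J)).filter (fun s => ∃ δ ∈ B,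
        ∀ u v, δ.Adj u v ↔ ¬ (β.Adj u v ↔ ∃ j ∈ s, SO σ (x, c j) (u, v))))).card ≤
          ((Finset.univ : Finset (Finset J)).filter (fun s => (symmDiff s g).card < q)).card := by
        apply Finset.card_le_card
        intro s hs
        rw [Finset.mem_filter] at hs ⊢
        refine ⟨Finset.mem_univ _, ?_⟩
        obtain ⟨-, δ, hδ, hflipδ⟩ := hs
        rw [hB, Finset.mem_filter] at hδ
        refine lt_of_le_of_lt ?_ hδ.2
        apply Finset.card_le_card_of_injOn (fun C : J => C.1)
        · intro C hC
          have hy : C.1.filter (δ.Adj y) = C.1.filter (β.Adj y) := by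
            apply Finset.filter_congr
            intro v hv
            rw [hflipδ y v]
            have h1 : ¬ ∃ j ∈ s, SO σ (x, c j) (y, v) := by
              rintro ⟨j, -, hj⟩
              exact hSOy j C v hv hj
            simp only [h1, iff_false, not_not]
          have hx : ∀ v ∈ C.1, (δ.Adj x v ↔ ¬ (β.Adj x v ↔ (C ∈ s ∧ Gam C v))) := by
            intro v hv
            rw [hflipδ x v]
            have h1 : (∃ j ∈ s, SO σ (x, c j) (x, v)) ↔ (C ∈ s ∧ Gam C v) := by
              constructor
              · rintro ⟨j, hj, h⟩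
                obtain ⟨rfl, h2⟩ := (hSOx j C v hv).mp h
                exact ⟨hj, h2⟩
              · rintro ⟨h1, h2⟩
                exact ⟨C, h1, (hSOx C C v hv).mpr ⟨rfl, h2⟩⟩
            rw [h1]
          simp only [Finset.coe_filter, Set.mem_ofPred_eq]
          refine ⟨(hJC C).1, (hJC C).2.1, (hJC C).2.2, ?_⟩
          rw [hy]
          rw [Finset.mem_coe, Finset.mem_symmDiff] at hC
          rcases hC with ⟨h1, h2⟩ | ⟨h1, h2⟩
          · have h3 : C.1.filter (δ.Adj x) = C.1.filter (fun v => ¬ (β.Adj x v ↔ Gam C v)) := by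
              apply Finset.filter_congr
              intro v hv
              rw [hx v hv]
              simp only [h1, true_and]
            rw [h3]
            intro h4
            apply h2
            simp only [g, Finset.mem_filter, Finset.mem_univ, true_and]
            exact h4
          · have h3 : C.1.filter (δ.Adj x) = C.1.filter (β.Adj x) := by
              apply Finset.filter_congr
              intro v hv
              rw [hx v hv]
              simp only [h2, false_and, iff_false, not_not]
            rw [h3]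
            intro h4
            simp only [g, Finset.mem_filter, Finset.mem_univ, true_and] at h1
            exact hf01 C (h4.trans h1.symm)
        · intro a _ b _ hab
          exact Subtype.ext hab
      refine hle.trans ?_
      rw [← hcJ]
      exact card_symm g q)
  have hcJ : Fintype.card J = (Cy σ).card - 2 := by
    rw [← hcS]
    exact Fintype.card_coe S
  rw [hcJ] at hmain
  rw [mul_comm (∑ j ∈ Finset.range q, ((Cy σ).card - 2).choose j)]
  exact hmain

end Pool.Agent.W737.BP
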